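import Pool.Agent.U59.WT.Patch

/-!
The exponents at which bounds of Weil type imply a power saving.
-/

set_option autoImplicit false

namespace Pool.Agent.U59.WT

open Finset Polynomial Pool.Agent.H471R4.BW
open scoped Pointwise

/-- all complete sums of products of values at nonconstant polynomials, with any bounded weights, are
the same for `f` and `h` up to `K` times the total degree times `√p` -/
def Close {p : ℕ} [Fact p.Prime] (K : ℝ) (f h : ZMod p → ℂ) : Prop :=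
  ∀ (n m : ℕ) (P : Fin n → (ZMod p)[X]) (Q : Fin m → (ZMod p)[X]), (∀ i, 1 ≤ (P i).natDegree) →
    (∀ i, 1 ≤ (Q i).natDegree) → ∀ g : ZMod p → ℂ, (∀ x, ‖g x‖ ≤ 1) →
      ‖∑ x, g x * ((∏ i, f ((P i).eval x)) * ∏ i, (starRingEnd ℂ) (f ((Q i).eval x))) -
        ∑ x, g x * ((∏ i, h ((P i).eval x)) * ∏ i, (starRingEnd ℂ) (h ((Q i).eval x)))‖ ≤
        K * ((∑ i, (P i).natDegree + ∑ i, (Q i).natDegree : ℕ) : ℝ) * Real.sqrt p

/-- `f (x y) = f x f y` with at most `K p ^ (3/2)` exceptions -/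
def NearlyMult {p : ℕ} [Fact p.Prime] (K : ℝ) (f : ZMod p → ℂ) : Prop :=
  (({xy : ZMod p × ZMod p | f (xy.1 * xy.2) ≠ f xy.1 * f xy.2}.ncard : ℕ) : ℝ) ≤ K * (p * Real.sqrt p)

/-- a power saving for all sets with `p ^ α` and `p ^ β` elements and all functions of a class -/
def Implied (F : ∀ p : ℕ, (ZMod p → ℂ) → Prop) (α β : ℝ) : Prop :=
  ∃ δ : ℝ, 0 < δ ∧ ∃ p₀ : ℕ, ∀ (p : ℕ) [Fact p.Prime], p₀ ≤ p → ∀ f : ZMod p → ℂ, F p f →
    ∀ A B : Finset (ZMod p), (p : ℝ) ^ α ≤ A.card → (p : ℝ) ^ β ≤ B.card →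
      ‖∑ a ∈ A, ∑ b ∈ B, f (a + b)‖ ≤ (p : ℝ) ^ (-δ) * (A.card * B.card)

/-- the functions with bounds of Weil type -/
def WeilClass (M : ℕ → ℝ) (p : ℕ) (f : ZMod p → ℂ) : Prop := ∀ _ : Fact p.Prime, WeilType M f

/-- the nearly multiplicative functions with bounds of Weil type that are close to the character -/
def NearClass (χ : ∀ p : ℕ, MulChar (ZMod p) ℂ) (M : ℕ → ℝ) (p : ℕ) (f : ZMod p → ℂ) : Prop :=
  ∀ _ : Fact p.Prime, WeilType M f ∧ Close 6 f (fun x => χ p x) ∧ NearlyMult 9 f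

theorem pair (p : ℕ) [Fact p.Prime] (χ : MulChar (ZMod p) ℂ) (hχ : χ ≠ 1) (K : ℝ) (A B : Finset (ZMod p))
    (hAB : ((A + B).card : ℝ) ≤ K * Real.sqrt p) :
    ∃ f : ZMod p → ℂ, (∀ x ∉ A + B, f x = χ x) ∧ (∀ x ∈ A + B, f x = 1) ∧
      ∑ a ∈ A, ∑ b ∈ B, f (a + b) = A.card * B.card ∧
      WeilType (fun r => (2 + 4 * K) * (r : ℝ)) f ∧ Close (2 * K) f (fun x => χ x) ∧ NearlyMult (3 * K) f := by
  classical
  refine ⟨patch (fun x => χ x) (A + B), fun x hx => patch_not_mem _ _ x hx, fun x hx => patch_mem _ _ x hx, ?_,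
    patch_weil χ hχ _ K hAB, ?_, ?_⟩
  · have h1 : ∀ a ∈ A, ∑ b ∈ B, patch (fun x => χ x) (A + B) (a + b) = B.card := by
      intro a ha
      have h2 : ∀ b ∈ B, patch (fun x => χ x) (A + B) (a + b) = 1 := fun b hb =>
        patch_mem _ _ _ (Finset.add_mem_add ha hb)
      rw [sum_congr rfl h2, sum_const, nsmul_eq_mul, mul_one]
    rw [sum_congr rfl h1, sum_const, nsmul_eq_mul]
  · intro n m P Q hP hQ g hg
    refine (complete_sums (fun x => χ x) (char_weil χ hχ).1 (A + B) n m P Q hP hQ g hg).trans ?_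
    have h0 : (0 : ℝ) ≤ ((∑ i, (P i).natDegree + ∑ i, (Q i).natDegree : ℕ) : ℝ) := Nat.cast_nonneg _
    nlinarith [mul_le_mul_of_nonneg_right hAB h0]
  · have h1 := patch_mul χ (A + B)
    have h2 : (({xy : ZMod p × ZMod p | patch (fun x => χ x) (A + B) (xy.1 * xy.2) ≠
      patch (fun x => χ x) (A + B) xy.1 * patch (fun x => χ x) (A + B) xy.2}.ncard : ℕ) : ℝ) ≤
        ((3 * (A + B).card * p : ℕ) : ℝ) := by exact_mod_cast h1
    unfold NearlyMult
    refine h2.trans ?_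
    push_cast
    have h0 : (0 : ℝ) ≤ p := Nat.cast_nonneg _
    nlinarith [mul_le_mul_of_nonneg_right hAB h0]

theorem implied (M : ℕ → ℝ) (hM : ∀ r, 1 ≤ r → 0 ≤ M r) (α β : ℝ) (hα : 0 < α) (hβ : 0 < β)
    (h : 1 / 2 < max α β) : Implied (WeilClass M) α β := by
  rcases lt_max_iff.1 h with h1 | h1
  · obtain ⟨δ, hδ, p₀, H⟩ := two_sets M hM (α - 1 / 2) β (by linarith) hβ
    refine ⟨δ, hδ, p₀, fun p hp hpp f hf A B hA hB => H p hpp f (hf hp) A B ?_ hB⟩
    rw [show 1 / 2 + (α - 1 / 2) = α by ring]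
    exact hA
  · obtain ⟨δ, hδ, p₀, H⟩ := two_sets M hM (β - 1 / 2) α (by linarith) hα
    refine ⟨δ, hδ, p₀, fun p hp hpp f hf A B hA hB => ?_⟩
    have h2 := H p hpp f (hf hp) B A (by rw [show 1 / 2 + (β - 1 / 2) = β by ring]; exact hB) hA
    rw [sum_comm, mul_comm (A.card : ℝ)]
    refine le_trans (le_of_eq ?_) h2
    congr 1
    exact sum_congr rfl fun b _ => sum_congr rfl fun a _ => by rw [add_comm]

theorem weilType_mono {p : ℕ} [Fact p.Prime] (M M' : ℕ → ℝ) (h : ∀ r, 1 ≤ r → M r ≤ M' r) (f : ZMod p → ℂ)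
    (hf : WeilType M f) : WeilType M' f :=
  ⟨hf.1, fun r hr b c hbc => (hf.2 r hr b c hbc).trans (mul_le_mul_of_nonneg_right (h r hr) (Real.sqrt_nonneg _))⟩

theorem not_implied (χ : ∀ p : ℕ, MulChar (ZMod p) ℂ) (hχ : ∀ p : ℕ, p.Prime → p ≠ 2 → χ p ≠ 1)
    (M : ℕ → ℝ) (hM : ∀ r : ℕ, 1 ≤ r → 14 * (r : ℝ) ≤ M r) (α β : ℝ)
    (h : max α β ≤ 1 / 2) : ¬ Implied (NearClass χ M) α β := by
  classical
  rintro ⟨δ, hδ, p₀, H⟩
  obtain ⟨p, hp0, hp⟩ := Nat.exists_infinite_primes (max p₀ 3)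
  have : Fact p.Prime := ⟨hp⟩
  have hp3 : 3 ≤ p := (le_max_right _ _).trans hp0
  have hpr : (0 : ℝ) < p := by positivity
  have hp1r : (1 : ℝ) ≤ p := by exact_mod_cast hp.one_le
  have hs1 : 1 ≤ Real.sqrt p := by
    rw [Real.one_le_sqrt]; exact hp1r
  set n : ℕ := ⌈Real.sqrt p⌉₊ with hn
  have hn1 : Real.sqrt p ≤ n := Nat.le_ceil _
  have hn2 : (n : ℝ) < Real.sqrt p + 1 := Nat.ceil_lt_add_one (Real.sqrt_nonneg _)
  have hnp : n ≤ p := by
    rw [hn]
    apply Nat.ceil_le.2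
    rw [Real.sqrt_le_left (by positivity)]
    nlinarith
  set A : Finset (ZMod p) := (range n).image fun i : ℕ => (i : ZMod p) with hA
  have hAc : A.card = n := by
    rw [hA, card_image_of_injOn, card_range]
    intro i hi j hj hij
    rw [Finset.mem_coe, mem_range] at hi hj
    have h1 : (i : ZMod p).val = (j : ZMod p).val := by
      have hij' : (i : ZMod p) = (j : ZMod p) := hij
      rw [hij']
    rw [ZMod.val_natCast, ZMod.val_natCast, Nat.mod_eq_of_lt (by omega), Nat.mod_eq_of_lt (by omega)] at h1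
    exact h1
  have hAA : ((A + A).card : ℝ) ≤ 3 * Real.sqrt p := by
    have h1 : A + A ⊆ (range (2 * n - 1)).image fun i : ℕ => (i : ZMod p) := by
      intro x hx
      rw [Finset.mem_add] at hx
      obtain ⟨a, ha, b, hb, rfl⟩ := hx
      rw [hA, mem_image] at ha hb
      obtain ⟨i, hi, rfl⟩ := ha
      obtain ⟨j, hj, rfl⟩ := hb
      rw [mem_range] at hi hj
      rw [mem_image]
      exact ⟨i + j, mem_range.2 (by omega), by push_cast; rfl⟩
    have h2 : (A + A).card ≤ 2 * n - 1 := (card_le_card h1).trans (card_image_le.trans (by rw [card_range]))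
    have hn0 : 1 ≤ n := by
      have : (0 : ℝ) < n := by linarith
      exact_mod_cast this
    have h3 : ((A + A).card : ℝ) ≤ 2 * n - 1 := by
      have : (((A + A).card + 1 : ℕ) : ℝ) ≤ ((2 * n : ℕ) : ℝ) := by exact_mod_cast (by omega)
      push_cast at this
      linarith
    linarith
  obtain ⟨f, -, -, hsum, hw, hc, hm⟩ := pair p (χ p) (hχ p hp (by omega)) 3 A A hAA
  have hF : NearClass χ M p f := by
    intro _
    refine ⟨weilType_mono _ M (fun r hr => ?_) f hw, ?_, ?_⟩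
    · have := hM r hr
      norm_num
      exact this
    · intro n m P Q hP hQ g hg
      have := hc n m P Q hP hQ g hg
      norm_num at this ⊢
      exact this
    · unfold NearlyMult at hm ⊢
      norm_num at hm ⊢
      exact hm
  have hcard : ∀ γ : ℝ, γ ≤ 1 / 2 → (p : ℝ) ^ γ ≤ A.card := by
    intro γ hγ
    rw [hAc]
    refine le_trans ?_ hn1
    rw [Real.sqrt_eq_rpow]
    exact Real.rpow_le_rpow_of_exponent_le hp1r hγ
  have h1 := H p ((le_max_left _ _).trans hp0) f hF A A (hcard α ((le_max_left _ _).trans h))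
    (hcard β ((le_max_right _ _).trans h))
  rw [hsum, hAc] at h1
  have hn0 : (0 : ℝ) < n := by linarith
  have h2 : ‖((n : ℂ) * (n : ℂ))‖ = (n : ℝ) * n := by
    rw [norm_mul, Complex.norm_natCast]
  rw [h2] at h1
  have h3 : (p : ℝ) ^ (-δ) < 1 := Real.rpow_lt_one_of_one_lt_of_neg (by
    have : 3 ≤ (p : ℝ) := by exact_mod_cast hp3
    linarith) (by linarith)
  have h4 : (0 : ℝ) < (n : ℝ) * n := by positivity
  nlinarith

theorem exact (χ : ∀ p : ℕ, MulChar (ZMod p) ℂ) (hχ : ∀ p : ℕ, p.Prime → p ≠ 2 → χ p ≠ 1)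
    (M : ℕ → ℝ) (hM : ∀ r : ℕ, 1 ≤ r → 14 * (r : ℝ) ≤ M r) (α β : ℝ) (hα : 0 < α) (hβ : 0 < β) :
    (Implied (WeilClass M) α β ↔ 1 / 2 < max α β) ∧ (Implied (NearClass χ M) α β ↔ 1 / 2 < max α β) := by
  have hM0 : ∀ r : ℕ, 1 ≤ r → 0 ≤ M r := fun r hr => le_trans (by positivity) (hM r hr)
  have h1 : Implied (WeilClass M) α β → Implied (NearClass χ M) α β := by
    rintro ⟨δ, hδ, p₀, H⟩
    exact ⟨δ, hδ, p₀, fun p hp hpp f hf => H p hpp f fun h => (hf h).1⟩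
  have h2 : Implied (NearClass χ M) α β → 1 / 2 < max α β := by
    intro h
    by_contra hcon
    push Not at hcon
    exact not_implied χ hχ M hM α β hcon h
  exact ⟨⟨fun h => h2 (h1 h), fun h => implied M hM0 α β hα hβ h⟩,
    ⟨h2, fun h => h1 (implied M hM0 α β hα hβ h)⟩⟩

end Pool.Agent.U59.WT
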