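import Pool.Agent.H435R3.Paley.All

/-!
High moments of sums over shifts of a function with bounds of Weil type.
-/

set_option autoImplicit false

namespace Pool.Agent.U59.WT

open Finset Pool.Agent.H471R4.BW

/-- some value is taken exactly once by `b` and `c` together -/
def Once {N r : ℕ} (b c : Fin r → ZMod N) : Prop :=
  ∃ v : ZMod N, {i | b i = v}.ncard + {i | c i = v}.ncard = 1

/-- bounds of Weil type for the products of `r + r` shifts -/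
def WeilType {N : ℕ} [NeZero N] (M : ℕ → ℝ) (f : ZMod N → ℂ) : Prop := (∀ x, ‖f x‖ ≤ 1) ∧
  ∀ r : ℕ, 1 ≤ r → ∀ b c : Fin r → ZMod N, Once b c →
    ‖∑ x : ZMod N, (∏ i, f (x + b i)) * ∏ i, (starRingEnd ℂ) (f (x + c i))‖ ≤ M r * Real.sqrt N

variable {N : ℕ} [NeZero N] (f : ZMod N → ℂ)

/-- the product over a pair of tuples -/
noncomputable def term (r n : ℕ) (w : Fin n → ZMod N) (b c : Fin r → Fin n) (x : ZMod N) : ℂ :=
  (∏ i, f (x + w (b i))) * ∏ i, (starRingEnd ℂ) (f (x + w (c i)))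

omit [NeZero N] in
theorem expand (r n : ℕ) (w : Fin n → ZMod N) (x : ZMod N) :
    ((‖∑ j, f (x + w j)‖ ^ (2 * r) : ℝ) : ℂ) =
      ∑ b : Fin r → Fin n, ∑ c : Fin r → Fin n, term f r n w b c x := by
  set S : ℂ := ∑ j, f (x + w j) with hS
  have h1 : ((‖S‖ ^ (2 * r) : ℝ) : ℂ) = S ^ r * (starRingEnd ℂ) S ^ r := by
    rw [← mul_pow, Complex.mul_conj, Complex.normSq_eq_norm_sq, pow_mul]
    push_cast
    ring
  have h2 : S ^ r = ∑ b : Fin r → Fin n, ∏ i, f (x + w (b i)) := by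
    rw [hS, ← Fin.prod_const, Finset.prod_univ_sum, Fintype.piFinset_univ]
  have h3 : (starRingEnd ℂ) S ^ r =
      ∑ c : Fin r → Fin n, ∏ i, (starRingEnd ℂ) (f (x + w (c i))) := by
    rw [hS, map_sum, ← Fin.prod_const, Finset.prod_univ_sum, Fintype.piFinset_univ]
  rw [h1, h2, h3, Finset.sum_mul_sum]
  rfl

omit [NeZero N] in
theorem term_norm_le (hf : ∀ x, ‖f x‖ ≤ 1) (r n : ℕ) (w : Fin n → ZMod N) (b c : Fin r → Fin n) (x : ZMod N) :
    ‖term f r n w b c x‖ ≤ 1 := by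
  unfold term
  rw [norm_mul, norm_prod, norm_prod]
  refine mul_le_one₀ (Finset.prod_le_one (fun i _ => norm_nonneg _) fun i _ => ?_)
    (Finset.prod_nonneg fun i _ => norm_nonneg _)
    (Finset.prod_le_one (fun i _ => norm_nonneg _) fun i _ => ?_)
  · exact hf _
  · rw [RCLike.norm_conj]
    exact hf _

omit [NeZero N] in
theorem once_val {r n : ℕ} (w : Fin n → ZMod N) (hw : Function.Injective w)
    (b c : Fin r → Fin n) (h : Uniq (fun i => (b i : ℕ)) (fun i => (c i : ℕ))) :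
    Once (fun i => w (b i)) (fun i => w (c i)) := by
  obtain ⟨v, hv⟩ := h
  have hvn : v < n := by
    by_contra hcon
    have h1 : (univ.filter fun i => (b i : ℕ) = v) = ∅ :=
      filter_false_of_mem fun i _ hi => by have := (b i).2; omega
    have h2 : (univ.filter fun i => (c i : ℕ) = v) = ∅ :=
      filter_false_of_mem fun i _ hi => by have := (c i).2; omega
    rw [h1, h2] at hv
    simp at hv
  refine ⟨w ⟨v, hvn⟩, ?_⟩
  rw [← hv]
  have key : ∀ j : Fin n, (w j = w ⟨v, hvn⟩ ↔ (j : ℕ) = v) := by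
    intro j
    constructor
    · intro h1
      rw [hw h1]
    · intro h1
      have : j = ⟨v, hvn⟩ := Fin.ext h1
      rw [this]
  congr 1
  · rw [← Set.ncard_coe_finset]
    congr 1
    ext i
    simp only [coe_filter, mem_univ, true_and, Set.mem_ofPred_eq]
    exact key (b i)
  · rw [← Set.ncard_coe_finset]
    congr 1
    ext i
    simp only [coe_filter, mem_univ, true_and, Set.mem_ofPred_eq]
    exact key (c i)

open Classical in
theorem momB (M : ℕ → ℝ) (hf : WeilType M f) (r n : ℕ) (hr : 1 ≤ r) (hK : 0 ≤ M r) (w : Fin n → ZMod N)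
    (hw : Function.Injective w) :
    ∑ x : ZMod N, ‖∑ j, f (x + w j)‖ ^ (2 * r) ≤
      (r : ℝ) ^ (2 * r) * (n : ℝ) ^ r * N + M r * (n : ℝ) ^ (2 * r) * Real.sqrt N := by
  have hW : ((∑ x : ZMod N, ‖∑ j, f (x + w j)‖ ^ (2 * r) : ℝ) : ℂ) =
      ∑ u : (Fin r → Fin n) × (Fin r → Fin n), ∑ x : ZMod N, term f r n w u.1 u.2 x := by
    rw [Finset.sum_comm]
    push_cast
    refine Finset.sum_congr rfl fun x _ => ?_
    have := expand f r n w x
    push_cast at this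
    rw [this, ← Finset.univ_product_univ, Finset.sum_product]
  have hW0 : 0 ≤ ∑ x : ZMod N, ‖∑ j, f (x + w j)‖ ^ (2 * r) :=
    Finset.sum_nonneg fun x _ => by positivity
  have hW1 : ∑ x : ZMod N, ‖∑ j, f (x + w j)‖ ^ (2 * r) =
      ‖∑ u : (Fin r → Fin n) × (Fin r → Fin n), ∑ x : ZMod N, term f r n w u.1 u.2 x‖ := by
    rw [← hW, Complex.norm_real, Real.norm_eq_abs, abs_of_nonneg hW0]
  rw [hW1]
  refine (norm_sum_le _ _).trans ?_
  rw [← Finset.sum_filter_add_sum_filter_not Finset.univ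
    (fun u : (Fin r → Fin n) × (Fin r → Fin n) =>
      ¬ Uniq (fun i => (u.1 i : ℕ)) (fun i => (u.2 i : ℕ)))]
  refine add_le_add ?_ ?_
  · have h1 : ∀ u ∈ Finset.univ.filter (fun u : (Fin r → Fin n) × (Fin r → Fin n) =>
        ¬ Uniq (fun i => (u.1 i : ℕ)) (fun i => (u.2 i : ℕ))),
        ‖∑ x : ZMod N, term f r n w u.1 u.2 x‖ ≤ (N : ℝ) := by
      intro u _
      refine (norm_sum_le _ _).trans ?_
      calc ∑ x : ZMod N, ‖term f r n w u.1 u.2 x‖ ≤ ∑ _x : ZMod N, (1 : ℝ) :=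
            Finset.sum_le_sum fun x _ => term_norm_le f hf.1 r n w u.1 u.2 x
        _ = N := by simp
    refine (Finset.sum_le_card_nsmul _ _ _ h1).trans ?_
    rw [nsmul_eq_mul]
    have h2 : (((Finset.univ.filter (fun u : (Fin r → Fin n) × (Fin r → Fin n) =>
        ¬ Uniq (fun i => (u.1 i : ℕ)) (fun i => (u.2 i : ℕ)))).card : ℕ) : ℝ) ≤
        (r : ℝ) ^ (2 * r) * (n : ℝ) ^ r := by
      exact_mod_cast tup r n hr
    exact mul_le_mul_of_nonneg_right h2 (Nat.cast_nonneg N)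
  · have h1 : ∀ u ∈ Finset.univ.filter (fun u : (Fin r → Fin n) × (Fin r → Fin n) =>
        ¬ ¬ Uniq (fun i => (u.1 i : ℕ)) (fun i => (u.2 i : ℕ))),
        ‖∑ x : ZMod N, term f r n w u.1 u.2 x‖ ≤ M r * Real.sqrt N := by
      intro u hu
      rw [Finset.mem_filter] at hu
      exact hf.2 r hr (fun i => w (u.1 i)) (fun i => w (u.2 i)) (once_val w hw u.1 u.2 (not_not.1 hu.2))
    refine (Finset.sum_le_card_nsmul _ _ _ h1).trans ?_
    rw [nsmul_eq_mul]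
    have h2 : (((Finset.univ.filter (fun u : (Fin r → Fin n) × (Fin r → Fin n) =>
        ¬ ¬ Uniq (fun i => (u.1 i : ℕ)) (fun i => (u.2 i : ℕ)))).card : ℕ) : ℝ) ≤
        (n : ℝ) ^ (2 * r) := by
      have h3 := Finset.card_filter_le (Finset.univ : Finset ((Fin r → Fin n) × (Fin r → Fin n)))
        (fun u => ¬ ¬ Uniq (fun i => (u.1 i : ℕ)) (fun i => (u.2 i : ℕ)))
      have h4 : (Finset.univ : Finset ((Fin r → Fin n) × (Fin r → Fin n))).card = n ^ (2 * r) := by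
        rw [Finset.card_univ, Fintype.card_prod, Fintype.card_fun, Fintype.card_fin,
          Fintype.card_fin, two_mul, pow_add]
      rw [h4] at h3
      exact_mod_cast h3
    calc _ ≤ (n : ℝ) ^ (2 * r) * (M r * Real.sqrt N) :=
          mul_le_mul_of_nonneg_right h2 (mul_nonneg hK (Real.sqrt_nonneg _))
      _ = M r * (n : ℝ) ^ (2 * r) * Real.sqrt N := by ring

/-- the same bound for a finite set of shifts -/
theorem momF (M : ℕ → ℝ) (hf : WeilType M f) (r : ℕ) (hr : 1 ≤ r) (hK : 0 ≤ M r) (B : Finset (ZMod N)) :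
    ∑ x : ZMod N, ‖∑ b ∈ B, f (x + b)‖ ^ (2 * r) ≤
      (r : ℝ) ^ (2 * r) * (B.card : ℝ) ^ r * N + M r * (B.card : ℝ) ^ (2 * r) * Real.sqrt N := by
  classical
  have h := momB f M hf r B.card hr hK (fun j => (B.equivFin.symm j : ZMod N))
    (fun i j hij => B.equivFin.symm.injective (Subtype.ext hij))
  refine le_trans (le_of_eq ?_) h
  refine sum_congr rfl fun x _ => ?_
  congr 2
  rw [← Finset.sum_coe_sort B (fun b => f (x + b))]
  exact (Fintype.sum_equiv B.equivFin.symm _ _ fun j => rfl).symm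

/-- the computation with exponents -/
lemma two_alg (r : ℕ) (hr1 : 1 ≤ r) (p a b m ε β S : ℝ) (hp1 : 1 ≤ p)
    (hrβ : 1 / 2 ≤ β * r) (hA : p ^ (1 / 2 + ε) ≤ a) (hB : p ^ β ≤ b)
    (hlarge : (r : ℝ) ^ (2 * r) + m ≤ p ^ (ε / 2))
    (h1 : S ^ (2 * r) ≤ a ^ (2 * r - 1) * ((r : ℝ) ^ (2 * r) * b ^ r * p + m * b ^ (2 * r) * p ^ (1 / 2 : ℝ))) :
    S ≤ p ^ (-(ε / (4 * r))) * (a * b) := by
  have hp0 : 0 < p := by linarith
  have hr0 : (0 : ℝ) < r := by exact_mod_cast hr1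
  have ha0 : 0 < a := lt_of_lt_of_le (by positivity) hA
  have hb0 : 0 < b := lt_of_lt_of_le (by positivity) hB
  have hbr : p ^ (1 / 2 : ℝ) ≤ b ^ r := by
    calc p ^ (1 / 2 : ℝ) ≤ p ^ (β * r) := Real.rpow_le_rpow_of_exponent_le hp1 hrβ
      _ = (p ^ β) ^ r := by rw [Real.rpow_mul hp0.le, Real.rpow_natCast]
      _ ≤ b ^ r := pow_le_pow_left₀ (by positivity) hB r
  have hpp2 : p = p ^ (1 / 2 : ℝ) * p ^ (1 / 2 : ℝ) := by
    rw [← Real.rpow_add hp0]; norm_num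
  have h6 : (r : ℝ) ^ (2 * r) * b ^ r * p + m * b ^ (2 * r) * p ^ (1 / 2 : ℝ) ≤
      ((r : ℝ) ^ (2 * r) + m) * (b ^ (2 * r) * p ^ (1 / 2 : ℝ)) := by
    have h7 : (r : ℝ) ^ (2 * r) * b ^ r * p ≤ (r : ℝ) ^ (2 * r) * (b ^ (2 * r) * p ^ (1 / 2 : ℝ)) := by
      have e1 : b ^ (2 * r) = b ^ r * b ^ r := by rw [← pow_add]; congr 1; ring
      rw [mul_assoc, e1]
      refine mul_le_mul_of_nonneg_left ?_ (by positivity)
      calc b ^ r * p = b ^ r * (p ^ (1 / 2 : ℝ) * p ^ (1 / 2 : ℝ)) := by rw [← hpp2]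
        _ ≤ b ^ r * (b ^ r * p ^ (1 / 2 : ℝ)) :=
            mul_le_mul_of_nonneg_left (mul_le_mul_of_nonneg_right hbr (by positivity)) (by positivity)
        _ = _ := by ring
    nlinarith
  have h8 : a ^ (2 * r - 1) * p ^ (1 / 2 : ℝ) ≤ a ^ (2 * r) * p ^ (-ε) := by
    have e1 : a ^ (2 * r) = a ^ (2 * r - 1) * a := by rw [← pow_succ]; congr 1; omega
    rw [e1, mul_assoc]
    refine mul_le_mul_of_nonneg_left ?_ (by positivity)
    calc p ^ (1 / 2 : ℝ) = p ^ (1 / 2 + ε) * p ^ (-ε) := by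
          rw [← Real.rpow_add hp0]; congr 1; ring
      _ ≤ a * p ^ (-ε) := mul_le_mul_of_nonneg_right hA (by positivity)
  have h9 : S ^ (2 * r) ≤ (p ^ (-(ε / (4 * r))) * (a * b)) ^ (2 * r) := by
    have e2 : (p ^ (-(ε / (4 * r)))) ^ (2 * r) = p ^ (-(ε / 2)) := by
      rw [← Real.rpow_natCast, ← Real.rpow_mul hp0.le]
      congr 1
      push_cast
      field_simp
      ring
    rw [mul_pow, e2, mul_pow]
    calc S ^ (2 * r)
        ≤ a ^ (2 * r - 1) * (((r : ℝ) ^ (2 * r) + m) * (b ^ (2 * r) * p ^ (1 / 2 : ℝ))) :=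
          h1.trans (mul_le_mul_of_nonneg_left h6 (by positivity))
      _ = ((r : ℝ) ^ (2 * r) + m) * b ^ (2 * r) * (a ^ (2 * r - 1) * p ^ (1 / 2 : ℝ)) := by ring
      _ ≤ p ^ (ε / 2) * b ^ (2 * r) * (a ^ (2 * r) * p ^ (-ε)) := by
          refine mul_le_mul (mul_le_mul_of_nonneg_right hlarge (by positivity)) h8 (by positivity) (by positivity)
      _ = (p ^ (ε / 2) * p ^ (-ε)) * (a ^ (2 * r) * b ^ (2 * r)) := by ring
      _ = _ := by
          rw [← Real.rpow_add hp0]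
          congr 2
          ring
  exact le_of_pow_le_pow_left₀ (by omega) (by positivity) h9

/-- **Sums over two sets**, the first larger than the square root. -/
theorem two_sets (M : ℕ → ℝ) (hM : ∀ r, 1 ≤ r → 0 ≤ M r) (ε β : ℝ) (hε : 0 < ε) (hβ : 0 < β) :
    ∃ δ : ℝ, 0 < δ ∧ ∃ p₀ : ℕ, ∀ (p : ℕ) [Fact p.Prime], p₀ ≤ p → ∀ f : ZMod p → ℂ, WeilType M f →
      ∀ A B : Finset (ZMod p), (p : ℝ) ^ (1 / 2 + ε) ≤ A.card → (p : ℝ) ^ β ≤ B.card →
        ‖∑ a ∈ A, ∑ b ∈ B, f (a + b)‖ ≤ (p : ℝ) ^ (-δ) * (A.card * B.card) := by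
  obtain ⟨r, hr⟩ : ∃ r : ℕ, r = ⌈1 / β⌉₊ + 1 := ⟨_, rfl⟩
  have hr1 : 1 ≤ r := by omega
  have hrβ : 1 / 2 ≤ β * r := by
    have h1 : 1 / β ≤ (⌈1 / β⌉₊ : ℝ) := Nat.le_ceil _
    have h2 : (r : ℝ) = (⌈1 / β⌉₊ : ℝ) + 1 := by rw [hr]; push_cast; ring
    rw [h2]
    have h3 : 1 = β * (1 / β) := by field_simp
    nlinarith
  have hr0 : (0 : ℝ) < r := by exact_mod_cast hr1
  refine ⟨ε / (4 * r), by positivity, ?_⟩
  obtain ⟨p₀, hp₀2, hp₀⟩ := Pool.Agent.H435R3.Paley.exists_large ((r : ℝ) ^ (2 * r) + M r) (ε / 2) (by positivity)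
  refine ⟨p₀, fun p _ hp f hf A B hA hB => ?_⟩
  have hpp : p.Prime := Fact.out
  have hp0 : (0 : ℝ) < p := by exact_mod_cast hpp.pos
  have hp1 : (1 : ℝ) ≤ p := by exact_mod_cast hpp.one_le
  have hA0 : (0 : ℝ) < (A.card : ℝ) := lt_of_lt_of_le (Real.rpow_pos_of_pos hp0 _) hA
  have hMr := hM r hr1
  apply two_alg r hr1 p A.card B.card (M r) ε β _ hp1 hrβ hA hB (hp₀ p hp)
  -- Hölder
  have h2 : ‖∑ a ∈ A, ∑ b ∈ B, f (a + b)‖ ≤ ∑ a ∈ A, ‖∑ b ∈ B, f (a + b)‖ := norm_sum_le _ _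
  have h3 : (∑ a ∈ A, ‖∑ b ∈ B, f (a + b)‖) ^ (2 * r - 1 + 1) / (A.card : ℝ) ^ (2 * r - 1) ≤
      ∑ a ∈ A, ‖∑ b ∈ B, f (a + b)‖ ^ (2 * r - 1 + 1) :=
    pow_sum_div_card_le_sum_pow (fun _ _ => norm_nonneg _) _
  rw [show 2 * r - 1 + 1 = 2 * r by omega, div_le_iff₀ (pow_pos hA0 _)] at h3
  have h4 : ∑ a ∈ A, ‖∑ b ∈ B, f (a + b)‖ ^ (2 * r) ≤ ∑ x : ZMod p, ‖∑ b ∈ B, f (x + b)‖ ^ (2 * r) :=
    sum_le_sum_of_subset_of_nonneg (subset_univ _) fun _ _ _ => pow_nonneg (norm_nonneg _) _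
  have h5 := momF f M hf r hr1 hMr B
  rw [Real.sqrt_eq_rpow] at h5
  calc ‖∑ a ∈ A, ∑ b ∈ B, f (a + b)‖ ^ (2 * r) ≤ (∑ a ∈ A, ‖∑ b ∈ B, f (a + b)‖) ^ (2 * r) :=
        pow_le_pow_left₀ (norm_nonneg _) h2 _
    _ ≤ (∑ a ∈ A, ‖∑ b ∈ B, f (a + b)‖ ^ (2 * r)) * (A.card : ℝ) ^ (2 * r - 1) := h3
    _ ≤ ((r : ℝ) ^ (2 * r) * (B.card : ℝ) ^ r * p + M r * (B.card : ℝ) ^ (2 * r) * (p : ℝ) ^ (1 / 2 : ℝ)) *
          (A.card : ℝ) ^ (2 * r - 1) :=
        mul_le_mul_of_nonneg_right (h4.trans h5) (pow_nonneg hA0.le _)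
    _ = _ := mul_comm _ _

end Pool.Agent.U59.WT
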