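import Pool.Agent.U59.WT.Mom
import Pool.Agent.H341R2.WeilSharp

/-!
Characters changed to one on a set with `O(√p)` elements.
-/

set_option autoImplicit false

namespace Pool.Agent.U59.WT

open Finset Polynomial Pool.Agent.H471R4.BW
open scoped Pointwise

variable {p : ℕ} [Fact p.Prime]

open Classical in
/-- the function `h` changed to one on `S` -/
noncomputable def patch (h : ZMod p → ℂ) (S : Finset (ZMod p)) (x : ZMod p) : ℂ := if x ∈ S then 1 else h x

lemma patch_norm (h : ZMod p → ℂ) (hh : ∀ x, ‖h x‖ ≤ 1) (S : Finset (ZMod p)) (x : ZMod p) :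
    ‖patch h S x‖ ≤ 1 := by
  unfold patch
  split_ifs
  · simp
  · exact hh x

lemma patch_mem (h : ZMod p → ℂ) (S : Finset (ZMod p)) (x : ZMod p) (hx : x ∈ S) : patch h S x = 1 := if_pos hx

lemma patch_not_mem (h : ZMod p → ℂ) (S : Finset (ZMod p)) (x : ZMod p) (hx : x ∉ S) : patch h S x = h x := if_neg hx

/-- the number of the `x` at which a nonconstant polynomial has a value in `S` -/
lemma card_values (S : Finset (ZMod p)) (P : (ZMod p)[X]) (hP : 1 ≤ P.natDegree) :
    (univ.filter fun x : ZMod p => P.eval x ∈ S).card ≤ S.card * P.natDegree := by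
  classical
  have hsub : (univ.filter fun x : ZMod p => P.eval x ∈ S) ⊆ S.biUnion fun s => (P - C s).roots.toFinset := by
    intro x hx
    rw [mem_filter] at hx
    rw [mem_biUnion]
    refine ⟨P.eval x, hx.2, ?_⟩
    rw [Multiset.mem_toFinset, mem_roots']
    refine ⟨?_, ?_⟩
    · intro h0
      have h1 : P = C (P.eval x) := by rw [← sub_eq_zero]; exact h0
      rw [h1, natDegree_C] at hP
      omega
    · rw [IsRoot, eval_sub, eval_C, sub_self]
  refine (card_le_card hsub).trans (card_biUnion_le.trans ?_)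
  refine (sum_le_card_nsmul _ _ P.natDegree fun s _ => ?_).trans (le_of_eq (by rw [smul_eq_mul]))
  refine (Multiset.toFinset_card_le _).trans ((card_roots' _).trans ?_)
  rw [natDegree_sub_C]

lemma prod_norm_le {ι : Type} (s : Finset ι) (u : ι → ℂ) (hu : ∀ i ∈ s, ‖u i‖ ≤ 1) : ‖∏ i ∈ s, u i‖ ≤ 1 := by
  rw [norm_prod]
  exact Finset.prod_le_one (fun i _ => norm_nonneg _) hu

/-- **Complete sums change by `O(√p)`.** -/
theorem complete_sums (h : ZMod p → ℂ) (hh : ∀ x, ‖h x‖ ≤ 1) (S : Finset (ZMod p)) (n m : ℕ)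
    (P : Fin n → (ZMod p)[X]) (Q : Fin m → (ZMod p)[X]) (hP : ∀ i, 1 ≤ (P i).natDegree)
    (hQ : ∀ i, 1 ≤ (Q i).natDegree) (g : ZMod p → ℂ) (hg : ∀ x, ‖g x‖ ≤ 1) :
    ‖∑ x, g x * ((∏ i, patch h S ((P i).eval x)) * ∏ i, (starRingEnd ℂ) (patch h S ((Q i).eval x))) -
      ∑ x, g x * ((∏ i, h ((P i).eval x)) * ∏ i, (starRingEnd ℂ) (h ((Q i).eval x)))‖ ≤
      2 * (S.card : ℝ) * ((∑ i, (P i).natDegree + ∑ i, (Q i).natDegree : ℕ) : ℝ) := by
  classical
  set Z : Finset (ZMod p) := (univ.biUnion fun i => univ.filter fun x : ZMod p => (P i).eval x ∈ S) ∪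
    (univ.biUnion fun i => univ.filter fun x : ZMod p => (Q i).eval x ∈ S) with hZ
  have hZc : Z.card ≤ S.card * (∑ i, (P i).natDegree + ∑ i, (Q i).natDegree) := by
    rw [mul_add, mul_sum, mul_sum]
    refine (card_union_le _ _).trans (add_le_add ?_ ?_)
    · exact card_biUnion_le.trans (sum_le_sum fun i _ => card_values S (P i) (hP i))
    · exact card_biUnion_le.trans (sum_le_sum fun i _ => card_values S (Q i) (hQ i))
  rw [← sum_sub_distrib]
  have hone : ∀ x : ZMod p, ‖g x * ((∏ i, patch h S ((P i).eval x)) * ∏ i, (starRingEnd ℂ) (patch h S ((Q i).eval x))) -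
      g x * ((∏ i, h ((P i).eval x)) * ∏ i, (starRingEnd ℂ) (h ((Q i).eval x)))‖ ≤ if x ∈ Z then 2 else 0 := by
    intro x
    split_ifs with hx
    · refine (norm_sub_le _ _).trans ?_
      have h1 : ∀ w : ZMod p → ℂ, (∀ x, ‖w x‖ ≤ 1) →
          ‖g x * ((∏ i, w ((P i).eval x)) * ∏ i, (starRingEnd ℂ) (w ((Q i).eval x)))‖ ≤ 1 := by
        intro w hw
        rw [norm_mul, norm_mul]
        have h2 : ‖∏ i, w ((P i).eval x)‖ ≤ 1 := prod_norm_le _ _ fun i _ => hw _
        have h3 : ‖∏ i, (starRingEnd ℂ) (w ((Q i).eval x))‖ ≤ 1 := prod_norm_le _ _ fun i _ => by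
          rw [RCLike.norm_conj]; exact hw _
        exact mul_le_one₀ (hg x) (by positivity) (mul_le_one₀ h2 (norm_nonneg _) h3)
      have h4 := h1 (patch h S) (patch_norm h hh S)
      have h5 := h1 h hh
      linarith
    · have h1 : ∀ i, patch h S ((P i).eval x) = h ((P i).eval x) := by
        intro i
        apply patch_not_mem
        intro hc
        apply hx
        rw [hZ, mem_union, mem_biUnion]
        exact Or.inl ⟨i, mem_univ _, mem_filter.2 ⟨mem_univ _, hc⟩⟩
      have h2 : ∀ i, patch h S ((Q i).eval x) = h ((Q i).eval x) := by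
        intro i
        apply patch_not_mem
        intro hc
        apply hx
        rw [hZ, mem_union, mem_biUnion, mem_biUnion]
        exact Or.inr ⟨i, mem_univ _, mem_filter.2 ⟨mem_univ _, hc⟩⟩
      simp only [h1, h2, sub_self, norm_zero, le_refl]
  refine (norm_sum_le _ _).trans ((sum_le_sum fun x _ => hone x).trans ?_)
  rw [← sum_filter, sum_const, nsmul_eq_mul]
  have h1 : ((univ.filter fun x : ZMod p => x ∈ Z).card : ℝ) ≤ (Z.card : ℝ) := by
    have : (univ.filter fun x : ZMod p => x ∈ Z) ⊆ Z := fun x hx => (mem_filter.1 hx).2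
    exact_mod_cast card_le_card this
  have h2 : (Z.card : ℝ) ≤ ((S.card * (∑ i, (P i).natDegree + ∑ i, (Q i).natDegree) : ℕ) : ℝ) := by
    exact_mod_cast hZc
  rw [Nat.cast_mul] at h2
  linarith

/-- the characters have bounds of Weil type -/
theorem char_weil (χ : MulChar (ZMod p) ℂ) (hχ : χ ≠ 1) : WeilType (fun r => 2 * (r : ℝ)) (fun x => χ x) := by
  refine ⟨fun x => DirichletCharacter.norm_le_one (χ : DirichletCharacter ℂ p) x, ?_⟩
  intro r hr b c h
  have h1 := Pool.Agent.H435R3.Paley.good_all p χ hχ r hr (fun i => (b i).val) (fun i => (c i).val)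
    (fun i => ZMod.val_lt _) (fun i => ZMod.val_lt _) (by
      obtain ⟨v, hv⟩ := h
      refine ⟨v.val, ?_⟩
      rw [← hv]
      have key : ∀ x : ZMod p, (x.val = v.val ↔ x = v) := fun x =>
        ⟨fun h => ZMod.val_injective p h, fun h => by rw [h]⟩
      congr 1
      · rw [← Set.ncard_coe_finset]
        congr 1
        ext i
        simp only [coe_filter, mem_univ, true_and, Set.mem_ofPred_eq]
        exact key (b i)
      · rw [← Set.ncard_coe_finset]
        congr 1
        ext i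
        simp only [coe_filter, mem_univ, true_and, Set.mem_ofPred_eq]
        exact key (c i))
  simp only [ZMod.natCast_zmod_val] at h1
  exact h1

/-- the changed characters have bounds of Weil type -/
theorem patch_weil (χ : MulChar (ZMod p) ℂ) (hχ : χ ≠ 1) (S : Finset (ZMod p)) (K : ℝ)
    (hS : (S.card : ℝ) ≤ K * Real.sqrt p) :
    WeilType (fun r => (2 + 4 * K) * (r : ℝ)) (patch (fun x => χ x) S) := by
  have hw := char_weil χ hχ
  refine ⟨patch_norm _ hw.1 S, fun r hr b c h => ?_⟩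
  have h1 := complete_sums (fun x => χ x) hw.1 S r r (fun i => X + C (b i)) (fun i => X + C (c i))
    (fun i => by rw [natDegree_X_add_C]) (fun i => by rw [natDegree_X_add_C]) (fun _ => 1) (fun _ => by simp)
  simp only [eval_add, eval_X, eval_C, one_mul, natDegree_X_add_C, sum_const, card_univ, Fintype.card_fin,
    smul_eq_mul, mul_one] at h1
  have h2 := hw.2 r hr b c h
  have h3 : ‖∑ x : ZMod p, (∏ i, patch (fun x => χ x) S (x + b i)) *
      ∏ i, (starRingEnd ℂ) (patch (fun x => χ x) S (x + c i))‖ ≤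
      2 * (S.card : ℝ) * ((r + r : ℕ) : ℝ) + 2 * (r : ℝ) * Real.sqrt p := by
    have h4 := norm_le_norm_sub_add (∑ x : ZMod p, (∏ i, patch (fun x => χ x) S (x + b i)) *
      ∏ i, (starRingEnd ℂ) (patch (fun x => χ x) S (x + c i)))
      (∑ x : ZMod p, (∏ i, χ (x + b i)) * ∏ i, (starRingEnd ℂ) (χ (x + c i)))
    linarith
  refine h3.trans ?_
  push_cast
  have hr0 : (0 : ℝ) ≤ r := Nat.cast_nonneg r
  nlinarith [mul_le_mul_of_nonneg_right hS hr0]

/-- the changed characters are nearly multiplicative -/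
theorem patch_mul (χ : MulChar (ZMod p) ℂ) (S : Finset (ZMod p)) :
    {xy : ZMod p × ZMod p | patch (fun x => χ x) S (xy.1 * xy.2) ≠
      patch (fun x => χ x) S xy.1 * patch (fun x => χ x) S xy.2}.ncard ≤ 3 * S.card * p := by
  classical
  -- the three families of exceptional pairs
  set T1 : Finset (ZMod p × ZMod p) := S ×ˢ univ with hT1
  set T2 : Finset (ZMod p × ZMod p) := univ ×ˢ S with hT2
  set T3 : Finset (ZMod p × ZMod p) := (S ×ˢ univ).image fun sy => (sy.1 / sy.2, sy.2) with hT3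
  have hsub : {xy : ZMod p × ZMod p | patch (fun x => χ x) S (xy.1 * xy.2) ≠
      patch (fun x => χ x) S xy.1 * patch (fun x => χ x) S xy.2} ⊆ ((T1 ∪ T2 ∪ T3 : Finset _) : Set _) := by
    rintro ⟨x, y⟩ hxy
    rw [Finset.mem_coe, mem_union, mem_union]
    by_contra hcon
    push Not at hcon
    obtain ⟨⟨h1, h2⟩, h3⟩ := hcon
    have hx : x ∉ S := fun h => h1 (by rw [hT1, mem_product]; exact ⟨h, mem_univ _⟩)
    have hy : y ∉ S := fun h => h2 (by rw [hT2, mem_product]; exact ⟨mem_univ _, h⟩)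
    have hxy' : x * y ∉ S := by
      intro h
      rcases eq_or_ne y 0 with h0 | h0
      · rw [h0, mul_zero] at h
        exact hy (h0 ▸ h)
      · apply h3
        rw [hT3, mem_image]
        refine ⟨(x * y, y), ?_, ?_⟩
        · rw [mem_product]
          exact ⟨h, mem_univ _⟩
        · simp only
          rw [mul_div_cancel_right₀ _ h0]
    apply hxy
    show patch (fun x => χ x) S (x * y) = patch (fun x => χ x) S x * patch (fun x => χ x) S y
    rw [patch_not_mem _ _ _ hxy', patch_not_mem _ _ _ hx, patch_not_mem _ _ _ hy, map_mul]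
  have hp : (univ : Finset (ZMod p)).card = p := by rw [card_univ, ZMod.card]
  refine (Set.ncard_le_ncard hsub (Finset.finite_toSet _)).trans ?_
  rw [Set.ncard_coe_finset]
  refine (card_union_le _ _).trans ?_
  have e1 : T1.card = S.card * p := by rw [hT1, card_product, hp]
  have e2 : T2.card = S.card * p := by rw [hT2, card_product, hp, mul_comm]
  have e3 : T3.card ≤ S.card * p := by
    rw [hT3]
    refine card_image_le.trans ?_
    rw [card_product, hp]
  have e4 := card_union_le T1 T2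
  have e5 : 3 * S.card * p = S.card * p + S.card * p + S.card * p := by ring
  omega

/-- Weil's bound for all products of values of the changed Legendre symbol at polynomials -/
theorem legendre_weil (hp2 : p ≠ 2) (S : Finset (ZMod p)) (K : ℝ) (hS : (S.card : ℝ) ≤ K * Real.sqrt p)
    (n : ℕ) (P : Fin n → (ZMod p)[X]) (hP : ∀ i, 1 ≤ (P i).natDegree)
    (hns : ∀ (c : ZMod p) (h : (ZMod p)[X]), ∏ i, P i ≠ C c * h ^ 2) :
    ‖∑ x : ZMod p, ∏ i, patch (fun x => ((quadraticChar (ZMod p) x : ℤ) : ℂ)) S ((P i).eval x)‖ ≤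
      (1 + 2 * K) * ((∑ i, (P i).natDegree : ℕ) : ℝ) * Real.sqrt p := by
  classical
  have hh : ∀ x : ZMod p, ‖((quadraticChar (ZMod p) x : ℤ) : ℂ)‖ ≤ 1 := by
    intro x
    rcases eq_or_ne x 0 with h | h
    · rw [h]; simp
    · rcases quadraticChar_dichotomy h with h1 | h1 <;> rw [h1] <;> simp
  have h1 := complete_sums (fun x => ((quadraticChar (ZMod p) x : ℤ) : ℂ)) hh S n 0 P (fun i => i.elim0) hP
    (fun i => i.elim0) (fun _ => 1) (fun _ => by simp)
  simp only [one_mul, univ_eq_empty, prod_empty, mul_one, sum_empty, add_zero] at h1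
  -- Weil
  have hne : ∀ i, P i ≠ 0 := fun i h0 => by
    have := hP i
    rw [h0, natDegree_zero] at this
    omega
  have hdeg : (∏ i, P i).natDegree = ∑ i, (P i).natDegree := natDegree_prod _ _ fun i _ => hne i
  have hn : 1 ≤ (∏ i, P i).natDegree := by
    rcases Nat.eq_zero_or_pos (∏ i, P i).natDegree with h | h
    · exfalso
      obtain ⟨c, hc⟩ := natDegree_eq_zero.1 h
      exact hns c 1 (by rw [one_pow, mul_one, hc])
    · exact h
  have hF : ringChar (ZMod p) ≠ 2 := by rw [ZMod.ringChar_zmod_n]; exact hp2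
  have hweil := Pool.Agent.H341R2.Sharp.weil_sharp hF (∏ i, P i) hn hns
  rw [ZMod.card] at hweil
  have h2 : ‖∑ x : ZMod p, ∏ i, ((quadraticChar (ZMod p) ((P i).eval x) : ℤ) : ℂ)‖ ≤
      ((∏ i, P i).natDegree - 1) * Real.sqrt p := by
    have e1 : ∑ x : ZMod p, ∏ i, ((quadraticChar (ZMod p) ((P i).eval x) : ℤ) : ℂ) =
        ((∑ x : ZMod p, (quadraticChar (ZMod p) ((∏ i, P i).eval x) : ℝ) : ℝ) : ℂ) := by
      push_cast
      apply sum_congr rfl
      intro x _
      rw [eval_prod, map_prod]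
      push_cast
      rfl
    rw [e1, Complex.norm_real, Real.norm_eq_abs]
    exact hweil
  have h3 := norm_le_norm_sub_add (∑ x : ZMod p, ∏ i, patch (fun x => ((quadraticChar (ZMod p) x : ℤ) : ℂ)) S ((P i).eval x))
    (∑ x : ZMod p, ∏ i, ((quadraticChar (ZMod p) ((P i).eval x) : ℤ) : ℂ))
  rw [hdeg] at h2
  have hs0 : 0 ≤ Real.sqrt p := Real.sqrt_nonneg _
  have hD0 : (0 : ℝ) ≤ ((∑ i, (P i).natDegree : ℕ) : ℝ) := Nat.cast_nonneg _
  have h4 : ‖∑ x : ZMod p, ∏ i, patch (fun x => ((quadraticChar (ZMod p) x : ℤ) : ℂ)) S ((P i).eval x)‖ ≤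
      2 * (S.card : ℝ) * ((∑ i, (P i).natDegree : ℕ) : ℝ) + (((∑ i, (P i).natDegree : ℕ) : ℝ) - 1) * Real.sqrt p := by
    linarith
  refine h4.trans ?_
  nlinarith [mul_le_mul_of_nonneg_right hS hD0]

end Pool.Agent.U59.WT
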